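import Pool.Agent.H64.NR.BEN
import Pool.Agent.H64.NR.RND
import Pool.Agent.H78.NR.Sel
import Pool.Agent.H83.NR.DRW
import Pool.Agent.H83.NR.ITR
import Pool.Agent.H83.NR.SmallParts
import Pool.Agent.H87.NR.JNT
import Pool.Agent.H87.NR.BAD
import Pool.Agent.H87.NR.CNT
import Pool.Agent.H97.NR.COL
import Pool.Agent.H97.NR.INA
import Pool.Agent.H97.NR.ROW1
import Pool.Agent.H97.NR.UNI
import Pool.Agent.H11.NR.MGR
import Pool.Agent.H99.NR.ROW2
import Pool.Agent.H99.NR.ONE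
import Pool.Agent.H99.NR.FINU

/-!
# Norm regularization of random matrices with entries bounded by `K √n`

For every `K ≥ 1` there is `C` such that for all `n`, all `ε ∈ (0, 1/6]` and all `n × n` random
matrices with i.i.d. entries of mean `0`, variance `1` and `|A i j| ≤ K √n` almost surely, with
probability at least `1 - 7 exp (- ε n / 12)` one can replace by `0` the entries of a submatrix
`I × J` with `|I|, |J| ≤ ε n` so that the operator norm of the new matrix is at most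
`C log (1 / ε) √n`.
-/

set_option autoImplicit false

open MeasureTheory ProbabilityTheory

namespace Pool.Agent.Results.MP_d89a53_pr.LogDependence

open Pool.Agent.H99.NR

theorem result.{v} (K : ℝ) (hK : 1 ≤ K) :
    ∃ C : ℝ, 0 < C ∧ ∀ (n : ℕ) (ε : ℝ), 0 < ε → ε ≤ 1 / 6 →
    ∀ (Ω : Type v) (_ : MeasurableSpace Ω) (P : Measure Ω), IsProbabilityMeasure P →
    ∀ A : Fin n → Fin n → Ω → ℝ, (∀ i j, Measurable (A i j)) →
    iIndepFun (fun p : Fin n × Fin n => A p.1 p.2) P →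
    (∀ i j i' j', IdentDistrib (A i j) (A i' j') P P) →
    (∀ i j, ∫ ω, A i j ω ∂P = 0) → (∀ i j, ∫ ω, A i j ω ^ 2 ∂P = 1) →
    (∀ i j, ∀ᵐ ω ∂P, |A i j ω| ≤ K * √n) →
    ENNReal.ofReal (1 - 7 * Real.exp (-(ε * n / 12))) ≤
      P {ω | ∃ I J : Finset (Fin n), (I.card : ℝ) ≤ ε * n ∧ (J.card : ℝ) ≤ ε * n ∧
        ‖Matrix.toEuclideanCLM (𝕜 := ℝ) (Matrix.of fun i j : Fin n =>
          if i ∈ I ∧ j ∈ J then 0 else A i j ω)‖ ≤ C * Real.log (1 / ε) * √n} := by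
  have hBEN : S_BEN := Pool.Agent.H64.NR.BEN_proved
  have hITR : S_ITR := Pool.Agent.H83.NR.t_ITR (Pool.Agent.H78.NR.SEL Pool.Agent.H64.NR.RND_proved)
  have hJNT : S_JNT := Pool.Agent.H87.NR.t_JNT
  have hBAD : S_BAD := Pool.Agent.H87.NR.t_BAD hJNT
  have hCNT : S_CNT := Pool.Agent.H87.NR.t_CNT hJNT
  have hROW1 : S_ROW1 := Pool.Agent.H97.NR.ROW1 hBEN hBAD Pool.Agent.H97.NR.INA
  have hROW2 : S_ROW2 := Pool.Agent.H99.NR.t_ROW2 hBEN hBAD
  have hMGR : S_MGR := Pool.Agent.H11.NR.t_MGR (Pool.Agent.H83.NR.t_ROW hROW1 hROW2) hBAD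
  have hUNI : S_UNI := Pool.Agent.H97.NR.UNI hMGR
  have hTRP : S_TRP := Pool.Agent.H83.NR.t_TRP
  have hONE : S_ONE := Pool.Agent.H99.NR.t_ONE hITR Pool.Agent.H83.NR.t_SCH
    Pool.Agent.H83.NR.t_DRW hCNT Pool.Agent.H97.NR.COL hUNI hTRP
  exact Pool.Agent.H99.NR.FinU.t_FINU hONE hTRP K hK

end Pool.Agent.Results.MP_d89a53_pr.LogDependence
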